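import Pool.Agent.Lib.MP_3974fb_lc.Cases

/-!
For real `α, β` with `|α|, |β| > 1` and `N(α) \ N(β)` nonempty, the set `N(α) \ N(β)` lies in
`D₂(Π⁰₃)` and its complement does not.
-/

namespace Pool.Agent.Results.MP_3974fb_lc.DifferenceComplete

open Pool.Agent.Lib.MP_3974fb_lc

theorem result (α β : ℝ) (hα : 1 < |α|) (hβ : 1 < |β|)
    (hne : (NormalSet α \ NormalSet β).Nonempty) :
    IsD2 (NormalSet α \ NormalSet β) ∧ ¬ IsD2 (NormalSet α \ NormalSet β)ᶜ := by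
  obtain ⟨α', hα', hA⟩ := exists_blockB hα
  exact ⟨⟨_, _, isPi03_normal α, isPi03_normal β, rfl⟩,
    not_isD2_compl hα hβ (phaseG hα hβ) (phaseB hα' hα hA) (phaseB hα hβ (blockB hα hβ hne))⟩

end Pool.Agent.Results.MP_3974fb_lc.DifferenceComplete
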