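import Pool.Agent.Lib.MP_3974fb_lc.JointMain

/-!
For `n ≥ 3` real bases, the iterated difference `N(α 0) \ (N(α 1) \ (⋯ \ N(α (n-1))))` is
`D_n(Π⁰₃)`-complete exactly when no `N(α j)` contains the intersection of the sets `N(α i)` over
the earlier bases that are multiplicatively dependent on `α j`.
-/

namespace Pool.Agent.Results.MP_3974fb_lc.IteratedDifference

open Pool.Agent.Lib.MP_3974fb_lc

theorem result (n : ℕ) (hn : 3 ≤ n) (α : ℕ → ℝ) (hα : ∀ i < n, 1 < |α i|) :
    (IsDn n (nest n fun i => NormalSet (α i)) ∧ ¬ IsDn n (nest n fun i => NormalSet (α i))ᶜ) ↔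
    ∀ j < n, ∃ ξ : ℝ, ξ ∉ NormalSet (α j) ∧ ∀ i < j,
      ¬ Irrational (Real.log |α i| / Real.log |α j|) → ξ ∈ NormalSet (α i) := by
  constructor
  · rintro ⟨-, H⟩ j hj
    by_contra hcon
    push Not at hcon
    have h1 : ∀ ξ, (∀ i < j, ξ ∈ NormalSet (α i)) → ξ ∈ NormalSet (α j) := fun ξ h => by
      by_contra h'
      obtain ⟨i, hi, -, h2⟩ := hcon ξ h'
      exact h2 (h i hi)
    cases j with
    | zero => exact zero_not_normal _ (h1 0 (by simp))
    | succ j =>
      obtain ⟨m, rfl⟩ : ∃ m, n = m + 2 := ⟨n - 2, by omega⟩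
      have h2 := nest_collapse j m (fun i => NormalSet (α i)) Set.univ
        (fun i => isPi03_normal _) isPi03_univ (by omega) fun x _ hx => h1 x fun i hi =>
          hx i (by omega)
      rw [Set.univ_inter] at h2
      exact H (by rw [Set.compl_eq_univ_sdiff]; exact (IsDn.cons isPi03_univ h2).succ)
  · intro H
    refine ⟨⟨_, fun i => isPi03_normal _, rfl⟩, ?_⟩
    rintro ⟨B, hB, hD⟩
    obtain ⟨ξ, hξ⟩ := chain_fix (N := n) (by omega) (fun i => α i) (fun i => hα i i.2) (fun j => by
      obtain ⟨ξ, h1, h2⟩ := H j j.2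
      exact phaseJ_family (α := fun i : Fin n => α i) (fun i => hα i i.2) h1
        fun i hi => h2 i hi) (fun i => B i) fun i => hB i
    have key := nest_congr (x := ξ) n (fun i => NormalSet (α i)) B fun j hj h =>
      hξ ⟨j, hj⟩ fun i hi => h i hi
    rw [← hD] at key
    exact not_iff_self key.symm

end Pool.Agent.Results.MP_3974fb_lc.IteratedDifference
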